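import Pool.Agent.Helper50.GP.St

set_option autoImplicit false

/-!
# Project GP, module FIN (MP_b3ce06_al): the group is finite
-/

namespace Pool.Agent.Helper29.GP

open Pool.Agent.Helper50.GP

/-- a finite extension of a finite group is finite -/
theorem fin_ext {G : Type} [Group G] (N : Subgroup G) (h1 : Finite N) (h2 : Finite (G ⧸ N)) :
    Finite G := by
  have h3 : Nat.card N ≠ 0 := Nat.card_ne_zero.2 ⟨⟨1⟩, h1⟩
  have h4 : N.index ≠ 0 := Subgroup.index_ne_zero_of_finite
  apply Nat.finite_of_card_ne_zero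
  rw [← N.card_mul_index]
  exact mul_ne_zero h3 h4

theorem fin_of_index {G : Type} [Group G] (N : Subgroup G) (h : N.index ≠ 0) :
    Finite (G ⧸ N) := by
  haveI : N.FiniteIndex := ⟨h⟩
  infer_instance

theorem fin_zpow_mod {G : Type} [Group G] (c : G) (M : ℕ) (hM : 1 ≤ M) (hc : c ^ M = 1) (j : ℤ) :
    ∃ i : ℕ, i < M ∧ c ^ j = c ^ i := by
  have hM' : (0 : ℤ) < M := by exact_mod_cast hM
  refine ⟨(j % M).toNat, ?_, ?_⟩
  · have h1 := Int.emod_lt_of_pos j hM'
    have h2 := Int.emod_nonneg j hM'.ne'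
    omega
  · have h2 := Int.emod_nonneg j hM'.ne'
    have h3 : ((j % M).toNat : ℤ) = j % M := Int.toNat_of_nonneg h2
    rw [← zpow_natCast c, h3]
    conv_lhs => rw [← Int.mul_ediv_add_emod j M, zpow_add, zpow_mul, zpow_natCast, hc, one_zpow,
      one_mul]

/-- the letters are finitely many -/
theorem fin_letters {G : Type} [Group G] (x c : G) (M : ℕ) (hM : 1 ≤ M) (hc : c ^ M = 1) :
    (Set.range (xl x c)).Finite := by
  apply Set.Finite.subset ((Finset.range M).finite_toSet.image
    (fun i : ℕ => (c ^ i)⁻¹ * x * c ^ i))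
  rintro _ ⟨j, rfl⟩
  obtain ⟨i, hi, hij⟩ := fin_zpow_mod c M hM hc j
  refine ⟨i, by simpa using hi, ?_⟩
  unfold xl
  rw [zpow_neg, hij]

theorem fin_xl_pow {G : Type} [Group G] (x c : G) (j : ℤ) (A : ℕ) : xl x c j ^ A = xl (x ^ A) c j := by
  have h := conj_pow (i := A) (a := c ^ (-j)) (b := x)
  unfold xl
  rw [zpow_neg] at h ⊢
  rw [inv_inv] at h
  exact h

/-- a group whose centre has finite index, generated by finitely many elements of finite order, is
finite -/
theorem fin_gen (hSCH : StSCH) (hABF : StABF) (G : Type) [Group G] (s : Set G) (hs : s.Finite)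
    (hord : ∀ a ∈ s, IsOfFinOrder a) (hcl : Subgroup.closure s = (⊤ : Subgroup G))
    (hZ : (Subgroup.center G).index ≠ 0) : Finite G := by
  have h1 : Finite (commutator G) := hSCH G hZ
  have h2 : Finite (Abelianization G) := by
    apply hABF (Abelianization G) (Abelianization.of '' s) (hs.image _)
    · intro a _ b _
      exact mul_comm a b
    · rintro _ ⟨a, ha, rfl⟩
      exact (Abelianization.of (G := G)).isOfFinOrder (hord a ha)
    · rw [← MonoidHom.map_closure, hcl]
      exact Subgroup.map_top_of_surjective _ (QuotientGroup.mk_surjective)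
  exact fin_ext (commutator G) h1 h2

/-- the torsion case -/
theorem fin_tors (hSCH : StSCH) (hABF : StABF) (hNRM : StNRM) (G : Type) [Group G] (w c : G)
    (a b g M A : ℕ) (ha : 1 ≤ a) (hab : Nat.Coprime a b) (hM : 1 ≤ M) (hA : 1 ≤ A)
    (hcl : Subgroup.closure {w, c} = (⊤ : Subgroup G)) (hr : (w ^ b)⁻¹ * c * w ^ b = c ^ g)
    (hc : c ^ M = 1) (hw : w ^ A = 1) (hZ : (Subgroup.center (Bs (w ^ a) c)).index ≠ 0) :
    Finite G := by
  have hn : (Bs (w ^ a) c).Normal := hNRM G w c a b g M hab hM hcl hr hc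
  -- `B` is finite
  have hB : Finite (Bs (w ^ a) c) := by
    apply fin_gen hSCH hABF (Bs (w ^ a) c)
      ((↑) ⁻¹' (Set.range (xl (w ^ a) c)) : Set (Bs (w ^ a) c))
    · exact (fin_letters (w ^ a) c M hM hc).preimage Subtype.val_injective.injOn
    · intro y hy
      obtain ⟨j, hj⟩ := hy
      rw [isOfFinOrder_iff_pow_eq_one]
      refine ⟨A, hA, ?_⟩
      apply Subtype.ext
      rw [SubmonoidClass.coe_pow, ← hj, fin_xl_pow, ← pow_mul, mul_comm a A, pow_mul, hw, one_pow]
      unfold xl
      rw [mul_one, ← zpow_add, neg_add_cancel, zpow_zero]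
      rfl
    · exact Subgroup.closure_closure_coe_preimage
    · exact hZ
  -- the quotient is finite
  have hQ : Finite (G ⧸ Bs (w ^ a) c) := by
    obtain ⟨s, hs⟩ : ∃ s : G ⧸ Bs (w ^ a) c, s = ((w ^ b : G) : G ⧸ Bs (w ^ a) c) := ⟨_, rfl⟩
    obtain ⟨d, hd⟩ : ∃ d : G ⧸ Bs (w ^ a) c, d = (c : G ⧸ Bs (w ^ a) c) := ⟨_, rfl⟩
    obtain ⟨v, hv⟩ : ∃ v : G ⧸ Bs (w ^ a) c, v = (w : G ⧸ Bs (w ^ a) c) := ⟨_, rfl⟩
    have hsv : s = v ^ b := by rw [hs, hv]; rfl
    have hva : v ^ a = 1 := by
      have h1 : ((w ^ a : G) : G ⧸ Bs (w ^ a) c) = 1 := by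
        rw [QuotientGroup.eq_one_iff]
        have h2 : xl (w ^ a) c 0 ∈ Bs (w ^ a) c := Subgroup.subset_closure ⟨0, rfl⟩
        rwa [xl_zero] at h2
      rw [hv]
      exact h1
    have hsa : s ^ a = 1 := by rw [hsv, ← pow_mul, mul_comm, pow_mul, hva, one_pow]
    have hdM : d ^ M = 1 := by
      rw [hd]
      have h1 : ((c ^ M : G) : G ⧸ Bs (w ^ a) c) = 1 := by rw [hc]; rfl
      exact h1
    have hsd : s⁻¹ * d * s = d ^ g := by
      rw [hs, hd]
      have h1 : (((w ^ b)⁻¹ * c * w ^ b : G) : G ⧸ Bs (w ^ a) c) =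
          ((c ^ g : G) : G ⧸ Bs (w ^ a) c) := by rw [hr]
      exact h1
    have hvz : v ∈ Subgroup.closure {s, d} := by
      have h1 : (v : G ⧸ Bs (w ^ a) c) = v ^ ((a : ℤ) * Nat.gcdA a b + b * Nat.gcdB a b) := by
        rw [← Nat.gcd_eq_gcd_ab, hab.gcd_eq_one, Nat.cast_one, zpow_one]
      rw [h1, zpow_add, zpow_mul, zpow_natCast, hva, one_zpow, one_mul, zpow_mul, zpow_natCast,
        ← hsv]
      exact Subgroup.zpow_mem _ (Subgroup.subset_closure (by simp)) _
    have hcl' : Subgroup.closure {s, d} = (⊤ : Subgroup (G ⧸ Bs (w ^ a) c)) := by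
      rw [eq_top_iff]
      have h1 : Subgroup.map (QuotientGroup.mk' (Bs (w ^ a) c)) (Subgroup.closure {w, c}) = ⊤ := by
        rw [hcl]
        exact Subgroup.map_top_of_surjective _ (QuotientGroup.mk'_surjective _)
      rw [← h1, MonoidHom.map_closure, Subgroup.closure_le]
      rintro _ ⟨y, hy, rfl⟩
      rcases hy with rfl | hy
      · rw [hv] at hvz
        exact hvz
      · rw [Set.mem_singleton_iff] at hy
        rw [hy]
        have h2 : d ∈ Subgroup.closure {s, d} := Subgroup.subset_closure (by simp)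
        rw [hd] at h2 ⊢
        exact h2
    have hds : ∀ j : ℕ, d ^ j * s = s * d ^ (g * j) := by
      intro j
      have h1 : s⁻¹ * d ^ j * s = (s⁻¹ * d * s) ^ j := by
        have := conj_pow (i := j) (a := s⁻¹) (b := d)
        rw [inv_inv] at this
        exact this.symm
      rw [hsd, ← pow_mul] at h1
      rw [← h1]
      group
    have step_s : ∀ k : ℕ, ∀ y : G ⧸ Bs (w ^ a) c, (∃ i j : ℕ, y = s ^ i * d ^ j) →
        ∃ i j : ℕ, y * s ^ k = s ^ i * d ^ j := by
      intro k
      induction k with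
      | zero =>
        intro y hy
        rw [pow_zero, mul_one]
        exact hy
      | succ k ih =>
        intro y hy
        obtain ⟨i, j, hij⟩ := ih y hy
        refine ⟨i + 1, g * j, ?_⟩
        rw [pow_succ, ← mul_assoc, hij, mul_assoc, hds j, pow_succ]
        group
    have step_d : ∀ k : ℕ, ∀ y : G ⧸ Bs (w ^ a) c, (∃ i j : ℕ, y = s ^ i * d ^ j) →
        ∃ i j : ℕ, y * d ^ k = s ^ i * d ^ j := by
      rintro k y ⟨i, j, hij⟩
      exact ⟨i, j + k, by rw [hij, mul_assoc, pow_add]⟩
    have hsinv : s⁻¹ = s ^ (a - 1) := by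
      rw [inv_eq_iff_mul_eq_one, ← pow_succ', Nat.sub_add_cancel ha, hsa]
    have hdinv : d⁻¹ = d ^ (M - 1) := by
      rw [inv_eq_iff_mul_eq_one, ← pow_succ', Nat.sub_add_cancel hM, hdM]
    have hall : ∀ y : G ⧸ Bs (w ^ a) c, ∃ i j : ℕ, y = s ^ i * d ^ j := by
      intro y
      have hy : y ∈ Subgroup.closure {s, d} := by rw [hcl']; trivial
      induction hy using Subgroup.closure_induction_right with
      | one => exact ⟨0, 0, by rw [pow_zero, pow_zero, mul_one]⟩
      | mul_right x hx y hy ih =>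
        rcases hy with rfl | hy
        · have := step_s 1 x ih
          rwa [pow_one] at this
        · rw [Set.mem_singleton_iff] at hy
          rw [hy]
          have := step_d 1 x ih
          rwa [pow_one] at this
      | mul_inv_cancel x hx y hy ih =>
        rcases hy with rfl | hy
        · rw [hsinv]
          exact step_s _ x ih
        · rw [Set.mem_singleton_iff] at hy
          rw [hy, hdinv]
          exact step_d _ x ih
    have hsurj : Function.Surjective (fun q : Fin a × Fin M => s ^ (q.1 : ℕ) * d ^ (q.2 : ℕ)) := by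
      intro y
      obtain ⟨i, j, hij⟩ := hall y
      refine ⟨(⟨i % a, Nat.mod_lt _ ha⟩, ⟨j % M, Nat.mod_lt _ hM⟩), ?_⟩
      change s ^ (i % a) * d ^ (j % M) = y
      have h1 : s ^ i = s ^ (i % a) := by
        conv_lhs => rw [← Nat.div_add_mod i a, pow_add, pow_mul, hsa, one_pow, one_mul]
      have h2 : d ^ j = d ^ (j % M) := by
        conv_lhs => rw [← Nat.div_add_mod j M, pow_add, pow_mul, hdM, one_pow, one_mul]
      rw [hij, h1, h2]
    exact Finite.of_surjective _ hsurj
  exact fin_ext _ hB hQ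

/-- **FIN** -/
theorem hFIN (hSCH : StSCH) (hABF : StABF) (hNRM : StNRM) : StFIN := by
  intro G _ w c a b g M r n ha hb hab hM hr1 hn hcl hr hc hcomm hwn hZ
  -- the central element `u`
  obtain ⟨u, hu⟩ : ∃ u : G, u = w ^ (a * b * r) := ⟨_, rfl⟩
  have huZ : u ∈ Subgroup.center G := by
    rw [Subgroup.mem_center_iff]
    have h1 : Subgroup.closure {w, c} ≤ Subgroup.centralizer {u} := by
      rw [Subgroup.closure_le]
      rintro y hy
      rw [SetLike.mem_coe, Subgroup.mem_centralizer_singleton_iff]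
      rcases hy with rfl | hy
      · rw [hu, ← pow_succ, ← pow_succ']
      · rw [Set.mem_singleton_iff] at hy
        rw [hy, hu, hcomm]
    intro y
    have h2 : y ∈ Subgroup.closure {w, c} := by rw [hcl]; trivial
    exact Subgroup.mem_centralizer_singleton_iff.1 (h1 h2)
  have hUle : Subgroup.zpowers u ≤ Subgroup.center G := by
    rw [Subgroup.zpowers_le]
    exact huZ
  have hUn : (Subgroup.zpowers u).Normal := by
    refine ⟨fun y hy t => ?_⟩
    have h1 := Subgroup.mem_center_iff.1 (hUle hy) t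
    rw [h1, mul_assoc, mul_inv_cancel, mul_one]
    exact hy
  obtain ⟨π, hπ⟩ : ∃ π : G →* G ⧸ Subgroup.zpowers u, π = QuotientGroup.mk' (Subgroup.zpowers u) :=
    ⟨_, rfl⟩
  have hπs : Function.Surjective π := by
    rw [hπ]
    exact QuotientGroup.mk'_surjective _
  have hπu : π u = 1 := by
    rw [hπ]
    exact (QuotientGroup.eq_one_iff u).2 (Subgroup.mem_zpowers u)
  have hfinQ : Finite (G ⧸ Subgroup.zpowers u) := by
    have e1 : Subgroup.map π (Bs (w ^ a) c) = Bs (π w ^ a) (π c) := by
      unfold Bs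
      rw [MonoidHom.map_closure]
      congr 1
      ext y
      constructor
      · rintro ⟨_, ⟨j, rfl⟩, rfl⟩
        exact ⟨j, by rw [xl_map, map_pow]⟩
      · rintro ⟨j, rfl⟩
        exact ⟨_, ⟨j, rfl⟩, by rw [xl_map, map_pow]⟩
    apply fin_tors hSCH hABF hNRM _ (π w) (π c) a b g M (a * b * r) ha hab hM
      (Nat.mul_pos (Nat.mul_pos ha hb) hr1)
    · have h1 : Subgroup.map π (Subgroup.closure {w, c}) = ⊤ := by
        rw [hcl]
        exact Subgroup.map_top_of_surjective _ hπs
      rw [MonoidHom.map_closure, Set.image_pair] at h1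
      exact h1
    · rw [← map_pow, ← map_inv, ← map_mul, ← map_mul, hr, map_pow]
    · rw [← map_pow, hc, map_one]
    · rw [← map_pow, ← hu, hπu]
    · rw [← e1]
      have hf : Function.Surjective (π.subgroupMap (Bs (w ^ a) c)) :=
        π.subgroupMap_surjective (Bs (w ^ a) c)
      have h1 : Subgroup.map (π.subgroupMap (Bs (w ^ a) c)) (Subgroup.center (Bs (w ^ a) c)) ≤
          Subgroup.center (Subgroup.map π (Bs (w ^ a) c)) := by
        rintro _ ⟨y, hy, rfl⟩
        rw [Subgroup.mem_center_iff]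
        intro t
        obtain ⟨t', rfl⟩ := hf t
        rw [← map_mul, ← map_mul, Subgroup.mem_center_iff.1 hy t']
      have h2 := (Subgroup.index_dvd_of_le h1).trans
        (Subgroup.index_map_dvd (Subgroup.center (Bs (w ^ a) c)) hf)
      exact ne_zero_of_dvd_ne_zero hZ h2
  have hidx : (Subgroup.center G).index ≠ 0 := by
    have h1 : (Subgroup.zpowers u).index ≠ 0 := Subgroup.index_ne_zero_of_finite
    exact ne_zero_of_dvd_ne_zero h1 (Subgroup.index_dvd_of_le hUle)
  -- the commutator subgroup and the abelianization are finite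
  have h1 : Finite (commutator G) := hSCH G hidx
  have h2 : Finite (Abelianization G) := by
    apply hABF (Abelianization G) {Abelianization.of w, Abelianization.of c}
      (Set.toFinite _)
    · intro a _ b _
      exact mul_comm a b
    · rintro y hy
      rcases hy with rfl | hy
      · rw [isOfFinOrder_iff_pow_eq_one]
        refine ⟨n, hn, ?_⟩
        rw [← map_pow]
        have h3 : w ^ n ∈ (Abelianization.of (G := G)).ker := by
          rw [Abelianization.ker_of]
          exact hwn
        exact h3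
      · rw [Set.mem_singleton_iff] at hy
        rw [hy, isOfFinOrder_iff_pow_eq_one]
        exact ⟨M, hM, by rw [← map_pow, hc, map_one]⟩
    · have h3 : Subgroup.map (Abelianization.of (G := G)) (Subgroup.closure {w, c}) = ⊤ := by
        rw [hcl]
        exact Subgroup.map_top_of_surjective _ (QuotientGroup.mk_surjective)
      rw [MonoidHom.map_closure, Set.image_pair] at h3
      exact h3
  exact fin_ext (commutator G) h1 h2

end Pool.Agent.Helper29.GP
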